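import Pool.Agent.Results.MP_3550b5_nt.ResidueClassesAndOrbits
import Pool.Agent.U569.APL.Null

set_option autoImplicit false

/-!
# Schneider's conjecture for members of families at parameters formed from arbitrary sets

A `Family d r` (see `Pool.Agent.Y732.Defs3`) is a Weierstrass equation over `ℤ[t₁, …, t_d]` with `r` sections, all
homogeneous for some weights of the parameters, and `F.K` is the height pairing of the sections over the function field;
it is assumed to be nondegenerate. `F.Marked v`: the member at `v ∈ ℤ^d` is an elliptic curve and the `r` points are in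
lowest terms and nonsingular modulo all primes. `F.NonDeg v p`: the `p`-adic regulator of the `r` points does not vanish
(so Schneider's conjecture at `p` holds if the rank is `r`); `Large F p T v`: these regulators have norm greater than
`1 / T`.

Let a sequence (`j = 0, 1, 2, …`) of families of vectors in `ℤ ^ d` be given. The vectors of the `j`-th family are
`c₀ + y`, `c₀` an arbitrary integral vector (depending on `j`, of any size) and `y` one of the following vectors
(represented by `0, …, q - 1`):

* `y` in any family of vectors modulo some `q` (depending on `j`), whose nontrivial Fourier coefficients are at most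
  `1 / (Z (42 + 3 log q) ^ d)`, where `Z → ∞`, `Z ≤ q`;
* `β(x, z) + u(x) + w(z)` modulo a prime `P → ∞`, where `β : k ^ a × k ^ b → k ^ d` is bilinear, the nontrivial
  combinations of its coordinates have rank at least `ρ`, `x` and `z` are in ARBITRARY sets `E` and `F` with
  `|E| |F| ≥ P ^ (a + b - ρ + δ)`, `u` and `w` are arbitrary functions (for `δ > 0` fixed);
* the same for `β(x, z) = x z`, `x` and `z` in ARBITRARY subsets of the field of `P ^ d` elements,
  `|E| |F| ≥ P ^ (d + δ)`;
* polynomials in `k` variables of degree at most `P ^ (δ / 4)`, all nontrivial combinations of which have a monomial with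
  at least two variables, plus arbitrary functions of the single variables, on products of `k` ARBITRARY sets of at
  least `P ^ (1 / 2 + δ)` residues;
* polynomials in one variable of degree at most `P ^ (δ / 4)`, no nontrivial combination of which is constant, on any
  subgroup of the multiplicative group modulo `P` with at least `P ^ (1 / 2 + δ)` elements.

**Theorem.** (1) There is a set `E j` of exceptions in the `j`-th family, `|E j| = o(size)`, such that for ALL families
`F` (all `r ≥ 1`, nondegenerate `F.K`) and ALL primes `p ≥ 5`, for large `j` the `p`-adic regulator does not vanish at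
any marked member, ordinary at `p`, with a parameter in the `j`-th family outside of `E j`. (2) For all `F`, `p ≥ 5`,
`k` and `η > 0`, for large `j` the proportion of the parameters in the `j`-th family for which the member is marked and
ordinary at `p` with a regulator of norm at most `p ^ (-k)` is at most `2^d r |det K| p⁴ / p^(k/r) + η`.

New: the families, and that one small set of exceptions serves for all elliptic families and primes. The residue classes
modulo `p ^ k` with small regulators are few (starting library `N763.SC`, on the results of `R89.SR`, `Y732`); they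
contain few members of the families by the theorem of the starting library `N384.VF` on vectors of residues; the
estimates of the Fourier coefficients on arbitrary sets are in `U569/APL`.
-/

namespace Pool.Agent.Results.MP_3550b5_nt.ArbitrarySets

open Filter
open Pool.Agent.Y732 Pool.Agent.R89.SR Pool.Agent.N763.SC
open Pool.Agent.U569.APL

theorem countable_mv (n : ℕ) : Countable (MvPolynomial (Fin n) ℤ) := by
  rw [← Cardinal.mk_le_aleph0_iff]
  refine (MvPolynomial.cardinalMk_le_max).trans ?_
  simp only [max_le_iff]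
  exact ⟨⟨Cardinal.mk_le_aleph0, Cardinal.mk_le_aleph0⟩, le_rfl⟩

theorem countable_family (d r : ℕ) : Countable (Family d r) := by
  have := countable_mv d
  have h : Function.Injective (fun F : Family d r => (F.w, F.χ, F.n, (F.W.a₁, F.W.a₂, F.W.a₃, F.W.a₄, F.W.a₆),
      F.x, F.y, F.e)) := by
    rintro ⟨w, χ, n, ⟨a₁, a₂, a₃, a₄, a₆⟩, x, y, e, _, _, _, _, _, _, _, _⟩
      ⟨w', χ', n', ⟨b₁, b₂, b₃, b₄, b₆⟩, x', y', e', _, _, _, _, _, _, _, _⟩ h
    simp only [Prod.mk.injEq] at h
    obtain ⟨h1, h2, h3, ⟨h4, h5, h6, h7, h8⟩, h9, h10, h11⟩ := h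
    subst h1 h2 h3 h4 h5 h6 h7 h8 h9 h10 h11
    rfl
  exact h.countable

/-- the proportion of the classes with small regulators -/
theorem dens_sml {d r : ℕ} (F : Family d r) (hr : 0 < r) (hK : F.K.det ≠ 0) {p : ℕ} [hp : Fact p.Prime]
    (hp5 : 5 ≤ p) (k : ℕ) : Pool.Agent.N666.TM.dens (SmlCls F p k) ≤
      2 ^ d * r * |(F.K.det : ℝ)| * (p : ℝ) ^ 4 / ((p : ℝ) ^ k) ^ ((1 : ℝ) / r) := by
  have hpk : (0 : ℝ) < ((p ^ k : ℕ) : ℝ) := by exact_mod_cast pow_pos hp.out.pos k
  unfold Pool.Agent.N666.TM.dens
  rw [div_le_iff₀ (by positivity), Fintype.card_fin]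
  refine (cls_real F hr hK hp5 k).trans (le_of_eq ?_)
  unfold cst
  ring

theorem result (d : ℕ) :
    (∀ (τ : ℕ → Type) (s : ∀ j, Finset (τ j)) (v : ∀ j, τ j → Fin d → ℤ), FlatFamilies s v →
      (∃ E : ∀ j, Finset (τ j), Small s E ∧
        ∀ (r : ℕ) (F : Family d r), 0 < r → F.K.det ≠ 0 → ∀ (p : ℕ) [Fact p.Prime], 5 ≤ p →
          Outside s E v fun c => F.Marked c → IsOrdinaryW p (F.curve c) → F.NonDeg c p) ∧
      ∀ (r : ℕ) (F : Family d r), 0 < r → F.K.det ≠ 0 → ∀ (p : ℕ) [Fact p.Prime], 5 ≤ p →
        ∀ (k : ℕ) (η : ℝ), 0 < η → ∀ᶠ j in atTop,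
          ({i : τ j | i ∈ s j ∧ F.Marked (v j i) ∧ IsOrdinaryW p (F.curve (v j i)) ∧
            ¬ Large F p (p ^ k) (v j i)}.ncard : ℝ) ≤
          (2 ^ d * r * |(F.K.det : ℝ)| * (p : ℝ) ^ 4 / ((p : ℝ) ^ k) ^ ((1 : ℝ) / r) + η) * (s j).card) ∧
    Examples (Fin d) := by
  classical
  refine ⟨fun τ s v hs => ⟨?_, fun r F hr hK p hp hp5 k η hη => ?_⟩, examples _⟩
  · have hcf : ∀ r, Countable (Family d r) := countable_family d
    obtain ⟨E, hE, h2⟩ := flat_diag_null hs
      (fun x : (Σ r : ℕ, ℕ × Family d r) =>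
        {c : Fin d → ℤ | ∃ hp : Fact x.2.1.Prime, 0 < x.1 ∧ x.2.2.K.det ≠ 0 ∧ 5 ≤ x.2.1 ∧ x.2.2.Marked c ∧
          IsOrdinaryW x.2.1 (x.2.2.curve c) ∧ ¬ x.2.2.NonDeg c x.2.1}) (by
        rintro ⟨r, p, F⟩
        by_cases h : p.Prime ∧ 0 < r ∧ F.K.det ≠ 0 ∧ 5 ≤ p
        · obtain ⟨hp, hr, hK, hp5⟩ := h
          have hpf : Fact p.Prime := ⟨hp⟩
          intro ε hε
          have hr' : (0 : ℝ) < 1 / r := by positivity
          have hp1 : (1 : ℝ) < p := by exact_mod_cast hp.one_lt
          have hlim : Tendsto (fun k : ℕ => 2 ^ d * r * |(F.K.det : ℝ)| * (p : ℝ) ^ 4 /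
              ((p : ℝ) ^ k) ^ ((1 : ℝ) / r)) atTop (nhds 0) :=
            Tendsto.const_div_atTop ((tendsto_rpow_atTop hr').comp (tendsto_pow_atTop_atTop_of_one_lt hp1)) _
          obtain ⟨k, hk⟩ := (hlim.eventually_le_const hε).exists
          have hpk : 1 ≤ p ^ k := Nat.one_le_pow _ _ hp.pos
          refine ⟨p ^ k, hpk, le_trans ?_ ((dens_sml F hr hK hp5 k).trans hk)⟩
          have : NeZero (p ^ k) := ⟨by omega⟩
          unfold Pool.Agent.N666.TM.dens
          refine div_le_div_of_nonneg_right ?_ (by positivity)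
          refine Nat.cast_le.2 (Set.ncard_le_ncard ?_ (Set.toFinite _))
          rintro _ ⟨c, ⟨_, _, _, _, hM, ho, hn⟩, rfl⟩
          exact ⟨c, sml_of_not_nonDeg hr hM ho hn _, rfl⟩
        · refine null_mono (B' := ∅) ?_ ?_
          · rintro c ⟨h3, h4, h5, h6, -⟩
            exact absurd ⟨h3.out, h4, h5, h6⟩ h
          · intro ε hε
            refine ⟨1, le_rfl, ?_⟩
            unfold Pool.Agent.N666.TM.dens
            simpa using hε.le)
    refine ⟨E, hE, fun r F hr hK p hp hp5 => ?_⟩
    have h1 := h2 ⟨r, p, F⟩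
    filter_upwards [h1] with j hj i hi hi2 hM ho
    by_contra hn
    exact hj i hi hi2 ⟨hp, hr, hK, hp5, hM, ho, hn⟩
  · have hpk : 1 ≤ p ^ k := Nat.one_le_pow _ _ hp.out.pos
    filter_upwards [flat_freq hs (p ^ k) hpk (SmlCls F p k) η hη] with j hj
    have h1 : ({i : τ j | i ∈ s j ∧ F.Marked (v j i) ∧ IsOrdinaryW p (F.curve (v j i)) ∧
        ¬ Large F p (p ^ k) (v j i)}.ncard : ℝ) ≤
        ({i : τ j | i ∈ s j ∧ Pool.Agent.Y722.HS.red (p ^ k) (v j i) ∈ SmlCls F p k}.ncard : ℕ) := by
      refine Nat.cast_le.2 (Set.ncard_le_ncard ?_ ((s j).finite_toSet.subset fun i hi => hi.1))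
      rintro i ⟨hi, hM, ho, hL⟩
      exact ⟨hi, ⟨v j i, sml_of_not hr hM ho hL, rfl⟩⟩
    refine h1.trans (hj.trans ?_)
    refine mul_le_mul_of_nonneg_right ?_ (Nat.cast_nonneg _)
    linarith [dens_sml F hr hK hp5 k]

end Pool.Agent.Results.MP_3550b5_nt.ArbitrarySets
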