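import Pool.Agent.U552.UD.FairOrd
import Pool.Agent.Results.MP_3550b5_nt.ResidueClassesAndOrbits

/-!
# Schneider's conjecture along all fair sequences of parameters: real polynomials, arbitrary functions of given orders

A `Family d r` (see `Pool.Agent.Y732.Defs3`) is a Weierstrass equation over `ℤ[t₁, …, t_d]` with `r`
sections, all homogeneous for some weights of the parameters, and `F.K` is the height pairing of the
sections over the function field; it is assumed to be nondegenerate. `F.Marked v`: the member at `v ∈ ℤ^d` is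
an elliptic curve and the `r` points are in lowest terms and nonsingular modulo all primes.
`F.NonDeg v p`: the `p`-adic regulator of the `r` points does not vanish, and Schneider's conjecture at `p`
holds if the rank is `r`; `Large F p T v`: these regulators have norm greater than `1 / T`.

**Theorem.** (1) Let the sequence `c_{n,0}, c_{n,1}, …`, `n = 0, 1, …`, of infinite integral vectors be `Fair`: for every finite set of
indices with `s` elements the proportion of the `n < N` with given residues of the `c_{n,l}` modulo `q` is at most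
`C q ^ (-s) + o(1)`, where `C` depends on the set of indices only. Then:
* for ALL `d` and all vectors `σ` of `d` different indices there is `κ > 0` such that for ALL families with `d` parameters
  and ALL primes `p ≥ 5` the times at which the member at `(c_{n,σ(1)}, …, c_{n,σ(d)})` is marked, ordinary at `p` and violates
  `NonDeg` have density zero, and those at which it is marked and ordinary and a regulator has norm at most `p ^ (-k)` have
  upper density at most `κ (2^d r |det K| p⁴) / p^(k/r)` (`Rare`);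
* there is ONE set `E` of density zero, depending on the sequence only, such that for ALL `d`, `σ`, ALL families and ALL
  primes `p ≥ 5` the member, if it is marked and ordinary at `p`, satisfies `NonDeg` for all but finitely many `n ∉ E`.

(2) `c_{n,l} = ⌊x_l(n)⌋` is fair if the exponential means of all nontrivial rational combinations of the real sequences `x_l`
tend to zero (`UniformlyDistributed`).

(3) This is so for the values `x_l(n) = P_l(n)` of real polynomials if no nontrivial integral combination of finitely many of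
them has only rational coefficients in positive degrees, for example for `x_l(n) = α_l n`, where `1, α_0, α_1, …` are
linearly independent over the rational numbers.

(4) `c_{n,l} = ⌊f_l(n)⌋` is fair for ARBITRARY functions of different orders `γ_l > 0`: for some `d > γ_l` (common for any
finitely many of them) the differences of order `d` of `f_l` have a constant sign and are `n ^ (γ_l - d + o(1))` in absolute
value. There is no smoothness and no formula; examples are `n ^ γ` with `γ` not an integer, `n ^ j log n`, all functions of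
a Hardy field with the same growth, plus arbitrary real polynomials of degree below `d`, and irregular functions.

The starting results: `ResidueClassesAndOrbits` has almost all random orbits of thin groups and metric sequences for
almost all real numbers, `ThinSequences` generalised polynomials with nonintegral exponents.

Proof. The exceptional vectors are contained in few residue classes modulo powers of `p` (starting library `N763.SC`),
and there are countably many families. (2) uses products of Fejer kernels (`Pool.Agent.U552.UD`), (3) is Weyl's theorem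
(starting library), (4) is a derivative test of order `d` for functions without smoothness (helper828,
`Pool.Agent.U828.KD.order_well`).
-/

set_option autoImplicit false

namespace Pool.Agent.Results.MP_3550b5_nt.FairSequences

open Filter Topology
open Pool.Agent.Y732 Pool.Agent.R89.SR Pool.Agent.N763.SC
open Pool.Agent.U125.NO (nul_countable)

/-- `S` has density zero. -/
def Null (S : Set ℕ) : Prop :=
  Tendsto (fun N : ℕ => (({n : ℕ | n < N ∧ n ∈ S}.ncard : ℕ) : ℝ) / (N : ℝ)) atTop (𝓝 0)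

/-- For every finite set of indices, with `s` elements, the proportion of the `n < N` with given residues of the
`c n l` modulo `q` is at most `C q ^ (-s) + o(1)`, where `C` depends on the set only. -/
def Fair (c : ℕ → ℕ → ℤ) : Prop :=
  ∀ s : Finset ℕ, ∃ C : ℝ, ∀ q : ℕ, 0 < q → ∀ (a : ℕ → ℤ) (δ : ℝ), 0 < δ → ∃ N₀ : ℕ, ∀ N : ℕ, N₀ ≤ N →
    (({n : ℕ | n < N ∧ ∀ l ∈ s, (q : ℤ) ∣ c n l - a l}.ncard : ℕ) : ℝ) ≤ (C / (q : ℝ) ^ s.card + δ) * N

/-- The exponential means of all nontrivial rational combinations of the sequences `x 0, x 1, …` tend to zero. -/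
def UniformlyDistributed (x : ℕ → ℕ → ℝ) : Prop :=
  ∀ (s : Finset ℕ) (h : ℕ → ℚ), (∃ l ∈ s, h l ≠ 0) →
    Tendsto (fun N : ℕ => (∑ n ∈ Finset.range N,
      Complex.exp (2 * Real.pi * ((∑ l ∈ s, (h l : ℝ) * x l n : ℝ) : ℂ) * Complex.I)) / (N : ℂ)) atTop (𝓝 0)

/-- No nontrivial integral combination of finitely many of the polynomials has only rational coefficients in positive
degrees. -/
def Independent (P : ℕ → Polynomial ℝ) : Prop :=
  ∀ (s : Finset ℕ) (h : ℕ → ℤ), (∃ l ∈ s, h l ≠ 0) →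
    ∃ j : ℕ, 1 ≤ j ∧ Irrational (∑ l ∈ s, (h l : ℝ) * (P l).coeff j)

/-- The differences of order `d` of `f` have a constant sign and are `n ^ (c - d + o(1))` in absolute value. -/
def Order (d : ℕ) (c : ℝ) (f : ℕ → ℝ) : Prop :=
  ∀ ε : ℝ, 0 < ε → ∃ T : ℕ,
    (∀ n : ℕ, T ≤ n → (n : ℝ) ^ (c - d - ε) ≤ (fwdDiff 1)^[d] f n ∧
      (fwdDiff 1)^[d] f n ≤ (n : ℝ) ^ (c - d + ε)) ∨
    (∀ n : ℕ, T ≤ n → (n : ℝ) ^ (c - d - ε) ≤ -(fwdDiff 1)^[d] f n ∧
      -(fwdDiff 1)^[d] f n ≤ (n : ℝ) ^ (c - d + ε))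

/-- For every `k` the functions `f_0, …, f_k` have the orders `γ_0, …, γ_k`, with a common order of differences. -/
def Orders (γ : ℕ → ℝ) (f : ℕ → ℕ → ℝ) : Prop :=
  ∀ k : ℕ, ∃ d : ℕ, 2 ≤ d ∧ ∀ l ≤ k, γ l < d ∧ Order d (γ l) (f l)

/-- The frequencies of the residue classes. -/
theorem freq_of_fair {c : ℕ → ℕ → ℤ} (hc : Fair c) {d : ℕ} {σ : Fin d → ℕ} (hσ : Function.Injective σ) :
    ∃ κ : ℝ, 0 < κ ∧ ∀ q : ℕ, 0 < q → Freq (fun n i => c n (σ i)) q κ := by
  obtain ⟨C, hC, hu⟩ := Pool.Agent.U552.UD.Fair.upper hc σ hσ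
  refine ⟨C + 1, by positivity, fun q hq S δ hδ => ?_⟩
  have : NeZero q := ⟨hq.ne'⟩
  have hqr : (0 : ℝ) < (q : ℝ) ^ d := by
    have : (0 : ℝ) < q := by exact_mod_cast hq
    positivity
  have h1 := hu.freq hC hq (P := fun v => (fun l => ((v l : ℤ) : ZMod q)) ∈ S)
    (ε := (S.ncard : ℝ) / (q : ℝ) ^ d) (by positivity) (by
      have h2 : (((fun (c : Fin d → ℤ) (i : Fin d) => (c i : ZMod q)) ''
          {u : Fin d → ℤ | (fun l => ((u l : ℤ) : ZMod q)) ∈ S}).ncard) ≤ S.ncard := by
        refine Set.ncard_le_ncard ?_ (Set.toFinite _)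
        rintro _ ⟨u, hu, rfl⟩
        exact hu
      rw [Fintype.card_fin, div_mul_cancel₀ _ hqr.ne']
      exact_mod_cast h2) hδ
  filter_upwards [h1] with N hN
  have h3 : cnt (fun n i => c n (σ i)) {v | (fun l => ((v l : ℤ) : ZMod q)) ∈ S} N / (N : ℝ) ≤
      C * ((S.ncard : ℝ) / (q : ℝ) ^ d) + δ := hN
  have h4 : (0 : ℝ) ≤ (S.ncard : ℝ) / (q : ℝ) ^ d := by positivity
  linarith

theorem countable_pol (d : ℕ) : Countable (MvPolynomial (Fin d) ℤ) := by
  have h := MvPolynomial.cardinalMk_le_max (σ := Fin d) (R := ℤ)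
  rw [← Cardinal.mk_le_aleph0_iff]
  refine h.trans ?_
  simp

instance (d r : ℕ) : Countable (Family d r) := by
  have := countable_pol d
  let f : Family d r → (Fin d → ℕ) × ℕ × (Fin (r + 1) → Fin (r + 1) → ℕ) ×
      (MvPolynomial (Fin d) ℤ × MvPolynomial (Fin d) ℤ × MvPolynomial (Fin d) ℤ × MvPolynomial (Fin d) ℤ ×
        MvPolynomial (Fin d) ℤ) ×
      (Fin (r + 1) → Fin (r + 1) → MvPolynomial (Fin d) ℤ) ×
      (Fin (r + 1) → Fin (r + 1) → MvPolynomial (Fin d) ℤ) ×
      (Fin (r + 1) → Fin (r + 1) → MvPolynomial (Fin d) ℤ) := fun F =>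
    (F.w, F.χ, F.n, (F.W.a₁, F.W.a₂, F.W.a₃, F.W.a₄, F.W.a₆), F.x, F.y, F.e)
  have hf : Function.Injective f := by
    rintro ⟨w, χ, n, ⟨a₁, a₂, a₃, a₄, a₆⟩, x, y, e, h1, h2, h3, h4, h6, hx, hy, he⟩
      ⟨w', χ', n', ⟨a₁', a₂', a₃', a₄', a₆'⟩, x', y', e', h1', h2', h3', h4', h6', hx', hy', he'⟩ h
    simp only [f, Prod.mk.injEq] at h
    obtain ⟨rfl, rfl, rfl, ⟨rfl, rfl, rfl, rfl, rfl⟩, rfl, rfl, rfl⟩ := h
    rfl
  exact hf.countable

theorem fair_main (c : ℕ → ℕ → ℤ) (hc : Fair c) :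
    (∀ (d : ℕ) (σ : Fin d → ℕ), Function.Injective σ → ∃ κ : ℝ, 0 < κ ∧
      ∀ (r : ℕ) (F : Family d r), 0 < r → F.K.det ≠ 0 → ∀ (p : ℕ) [Fact p.Prime], 5 ≤ p →
        Rare (fun n i => c n (σ i)) F p κ) ∧
    ∃ E : Set ℕ, Null E ∧ ∀ (d : ℕ) (σ : Fin d → ℕ), Function.Injective σ →
      ∀ (r : ℕ) (F : Family d r), 0 < r → F.K.det ≠ 0 → ∀ (p : ℕ) [Fact p.Prime], 5 ≤ p →
        {n : ℕ | n ∉ E ∧ F.Marked (fun i => c n (σ i)) ∧ IsOrdinaryW p (F.curve fun i => c n (σ i)) ∧
          ¬ F.NonDeg (fun i => c n (σ i)) p}.Finite := by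
  have hrare : ∀ (d : ℕ) (σ : Fin d → ℕ), Function.Injective σ → ∃ κ : ℝ, 0 < κ ∧
      ∀ (r : ℕ) (F : Family d r), 0 < r → F.K.det ≠ 0 → ∀ (p : ℕ) [Fact p.Prime], 5 ≤ p →
        Rare (fun n i => c n (σ i)) F p κ := by
    intro d σ hσ
    obtain ⟨κ, hκ, hfr⟩ := freq_of_fair hc hσ
    exact ⟨κ, hκ, fun r F hr hK p hp hp5 => rare_of_freq hκ.le
      (fun k => hfr (p ^ k) (pow_pos hp.out.pos k)) F hr hK hp5⟩
  refine ⟨hrare, ?_⟩
  obtain ⟨E, hE1, hE2⟩ := nul_countable
    (K := {a : (Σ d : ℕ, (Fin d → ℕ) × (Σ r : ℕ, Family d r)) × Nat.Primes //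
      Function.Injective a.1.2.1 ∧ 0 < a.1.2.2.1 ∧ a.1.2.2.2.K.det ≠ 0 ∧ 5 ≤ (a.2 : ℕ)})
    (fun a => {n : ℕ | a.1.1.2.2.2.Marked (fun i => c n (a.1.1.2.1 i)) ∧
      (haveI : Fact (a.1.2 : ℕ).Prime := ⟨a.1.2.2⟩;
        IsOrdinaryW (a.1.2 : ℕ) (a.1.1.2.2.2.curve (fun i => c n (a.1.1.2.1 i))) ∧
          ¬ a.1.1.2.2.2.NonDeg (fun i => c n (a.1.1.2.1 i)) (a.1.2 : ℕ))})
    (fun a => by
      obtain ⟨⟨⟨d, σ, r, F⟩, ⟨p, hp⟩⟩, hσ, hr, hK, hp5⟩ := a
      haveI : Fact p.Prime := ⟨hp⟩
      obtain ⟨κ, hκ, h⟩ := hrare d σ hσ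
      exact (h r F hr hK p hp5).1)
  refine ⟨E, hE1, fun d σ hσ r F hr hK p hp hp5 => ?_⟩
  refine (hE2 ⟨(⟨d, σ, r, F⟩, ⟨p, hp.out⟩), hσ, hr, hK, hp5⟩).subset ?_
  rintro n ⟨hn, hn2⟩
  exact ⟨hn2, hn⟩

/-- **Schneider's conjecture along fair sequences.** -/
theorem result :
    (∀ c : ℕ → ℕ → ℤ, Fair c →
      (∀ (d : ℕ) (σ : Fin d → ℕ), Function.Injective σ → ∃ κ : ℝ, 0 < κ ∧
        ∀ (r : ℕ) (F : Family d r), 0 < r → F.K.det ≠ 0 → ∀ (p : ℕ) [Fact p.Prime], 5 ≤ p →
          Rare (fun n i => c n (σ i)) F p κ) ∧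
      ∃ E : Set ℕ, Null E ∧ ∀ (d : ℕ) (σ : Fin d → ℕ), Function.Injective σ →
        ∀ (r : ℕ) (F : Family d r), 0 < r → F.K.det ≠ 0 → ∀ (p : ℕ) [Fact p.Prime], 5 ≤ p →
          {n : ℕ | n ∉ E ∧ F.Marked (fun i => c n (σ i)) ∧ IsOrdinaryW p (F.curve fun i => c n (σ i)) ∧
            ¬ F.NonDeg (fun i => c n (σ i)) p}.Finite) ∧
    (∀ x : ℕ → ℕ → ℝ, UniformlyDistributed x → Fair (fun n l => ⌊x l n⌋)) ∧
    (∀ P : ℕ → Polynomial ℝ, Independent P → UniformlyDistributed (fun l n => (P l).eval (n : ℝ))) ∧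
    ∀ (γ : ℕ → ℝ) (f : ℕ → ℕ → ℝ), (∀ l, 0 < γ l) → Function.Injective γ → Orders γ f →
      Fair (fun n l => ⌊f l n⌋) :=
  ⟨fun c hc => fair_main c hc,
    fun _ hx => Pool.Agent.U552.UD.fair_of_weyl hx,
    fun _ hP => Pool.Agent.U552.UD.weylFamily_of_poly hP,
    fun _ _ h0 hinj hf => Pool.Agent.U552.UD.fair_of_orders h0 hinj hf⟩

end Pool.Agent.Results.MP_3550b5_nt.FairSequences
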