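import Pool.Agent.N193.SR.Core
import Pool.Agent.U828.KD.Ord

/-!
# Schneider's conjecture in families along arbitrary functions of given orders, for all small primes simultaneously

A `Family d r` (see `Pool.Agent.Y732.Defs3`) is a Weierstrass equation over `ℤ[t₁, …, t_d]` with `r` sections, all
homogeneous for some weights of the parameters; `F.K` is the height pairing of the sections over the function field.
`F.Marked v`: the member at `v` is an elliptic curve and the `r` points are in lowest terms and nonsingular modulo all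
primes. `F.NonDeg v p`: the `p`-adic regulator of the `r` points does not vanish, and Schneider's conjecture at `p` holds
if the rank is `r`. `Large F p T v`: these regulators have norm greater than `1 / T`.

The parameters are here the integral parts `(⌊f₁(n)⌋, …, ⌊f_d(n)⌋)` of ARBITRARY functions of different orders
`c_i > 0`: for one `k > c_i` the differences of order `k` of `f_i` have a constant sign and are `n ^ (c_i - k + o(1))` in
absolute value. There is no smoothness and no formula; examples are `n ^ c` (`c` not an integer), `n ^ j log n`, functions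
of a Hardy field, all of these plus arbitrary real polynomials of degree below `k`, and irregular functions. The starting
file `ThinSequences` has generalised polynomials with non-integral leading exponents. The joint equidistribution modulo
the integers up to a power of `N` is `Pool.Agent.U828.KD.order_well`.
-/

set_option autoImplicit false

namespace Pool.Agent.Results.MP_3550b5_nt.FunctionsOfGivenOrder

open Pool.Agent.Y732 Pool.Agent.R89.SR

/-- The differences of order `d` of `f` have a constant sign and are `n ^ (c - d + o(1))` in absolute value. -/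
def Order (d : ℕ) (c : ℝ) (f : ℕ → ℝ) : Prop :=
  ∀ ε : ℝ, 0 < ε → ∃ N₀ : ℕ,
    (∀ n : ℕ, N₀ ≤ n → (n : ℝ) ^ (c - d - ε) ≤ (fwdDiff 1)^[d] f n ∧
      (fwdDiff 1)^[d] f n ≤ (n : ℝ) ^ (c - d + ε)) ∨
    (∀ n : ℕ, N₀ ≤ n → (n : ℝ) ^ (c - d - ε) ≤ -(fwdDiff 1)^[d] f n ∧
      -(fwdDiff 1)^[d] f n ≤ (n : ℝ) ^ (c - d + ε))

/-- The member at `v` is not marked, or for all primes `p` with `5 ≤ p ≤ X` at which it is ordinary: the `p`-adic
regulators of the `r` points and, if the rank is `r`, of the curve do not vanish, and they have norm greater than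
`p ^ (-k)` for some `k` with `p ^ k ≤ T`, in particular greater than `1 / T`. -/
def Schneider {d r : ℕ} (F : Family d r) (X T : ℝ) (v : Fin d → ℤ) : Prop :=
  F.Marked v → ∀ (p : ℕ) (_ : Fact p.Prime), 5 ≤ p → (p : ℝ) ≤ X → IsOrdinaryW p (F.curve v) →
    F.NonDeg v p ∧ ∃ k : ℕ, ((p ^ k : ℕ) : ℝ) ≤ T ∧ Large F p (p ^ k) v

open Classical in
/-- **Theorem.** Let `F` be a family with `d ≥ 1` parameters and `r ≥ 1` sections whose height pairing over the function
field is nondegenerate, `f₁, …, f_d` arbitrary functions of different orders `c_i > 0`, and `ε > 0`. There is `η > 0` such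
that for all large `N` and all but at most `N ^ (1 - η)` of the integers `n` in `(N, 2N]`: if the member at
`(⌊f₁(n)⌋, …, ⌊f_d(n)⌋)` is marked, then for ALL primes `5 ≤ p ≤ N ^ η` at which it is ordinary the `p`-adic regulator
does not vanish, and its norm is greater than `N ^ (-ε)`. -/
theorem result {d r : ℕ} (F : Family d r) (hd : 0 < d) (hr : 0 < r) (hK : F.K.det ≠ 0)
    (k : ℕ) (hk : 2 ≤ k) (c : Fin d → ℝ) (hc : Function.Injective c) (hc0 : ∀ i, 0 < c i) (hck : ∀ i, c i < k)
    (f : Fin d → ℕ → ℝ) (hf : ∀ i, Order k (c i) (f i)) (ε : ℝ) (hε : 0 < ε) :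
    ∃ η : ℝ, 0 < η ∧ ∃ N₀ : ℕ, ∀ N : ℕ, N₀ ≤ N →
      (((Finset.Ioc N (2 * N)).filter fun n =>
        ¬ Schneider F ((N : ℝ) ^ η) ((N : ℝ) ^ ε) (fun i => ⌊f i n⌋)).card : ℝ) ≤ (N : ℝ) ^ (1 - η) := by
  have : Nonempty (Fin d) := ⟨⟨0, hd⟩⟩
  obtain ⟨κ, hκ, hw⟩ := Pool.Agent.U828.KD.order_well k hk c hc hc0 hck f hf
  obtain ⟨η, hη, M, h⟩ := Pool.Agent.N193.SR.thin F hr hK hκ hw ε hε
  refine ⟨η, hη, M + 1, fun N hN => ?_⟩
  have hNr : (1 : ℝ) ≤ N := by exact_mod_cast (by omega : 1 ≤ N)
  have hN0 : (0 : ℝ) < N := by linarith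
  have e1 := h N (by omega)
  have e3 : (N : ℝ) * (N : ℝ) ^ (-η) = (N : ℝ) ^ (1 - η) := by
    rw [sub_eq_add_neg, Real.rpow_add hN0, Real.rpow_one]
  refine le_trans ?_ (e1.trans (le_of_eq ?_))
  · refine Nat.cast_le.2 (Finset.card_le_card ?_)
    intro n hn
    rw [Finset.mem_filter] at hn ⊢
    exact ⟨hn.1, fun hg => hn.2 fun hM p hp hp5 hpX ho => hg hM p hp hp5 hpX ho⟩
  · rw [Nat.card_Ioc, show 2 * N - N = N by omega, e3]

end Pool.Agent.Results.MP_3550b5_nt.FunctionsOfGivenOrder
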