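import Pool.Agent.Results.MP_3550b5_nt.ResidueClassesAndOrbits
import Pool.Agent.U125.NO.Seq

/-!
# Schneider's conjecture along every normal orbit of parameters

A `Family d r` (see `Pool.Agent.Y732.Defs3`) is a Weierstrass equation over `ℤ[t₁, …, t_d]` with `r`
sections, all homogeneous for some weights of the parameters, and `F.K` is the height pairing of the
sections over the function field; it is assumed to be nondegenerate. `F.Marked v`: the member at `v ∈ ℤ^d` is
an elliptic curve and the `r` points are in lowest terms and nonsingular modulo all primes.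
`F.NonDeg v p`: the `p`-adic regulator of the `r` points does not vanish, and Schneider's conjecture at `p`
holds if the rank is `r`; `Large F p T v`: these regulators have norm greater than `1 / T`.

**Theorem.** Let `x_0, x_1, …` be a normal orbit in `ℤ^d` (`NormalOrbit`): the orbit of an integral vector
under a finite family of integral affine maps along ANY normal sequence of indices, the family being wide
(for all `q` prime to some `q₀` the maps are bijective modulo `q`, and the vector can be moved to at least the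
proportion `ε > 0`, not depending on `q`, of all vectors modulo `q`). There are `q₀ > 0` and `κ > 0` such that
for ALL families with `d` parameters and all primes `p ≥ 5` which do not divide `q₀` the times at which the
member is marked, ordinary at `p` and violates `NonDeg` have density zero, and those at which it is marked
and ordinary and a regulator has norm at most `p ^ (-k)` have upper density at most
`κ (2^d r |det K| p⁴) / p^(k/r)` (`Rare`). Moreover there is ONE set `E` of density zero such that for ALL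
families and all these primes the member at `x_n`, if it is marked and ordinary at `p`, satisfies `NonDeg` for
all but finitely many `n ∉ E`.

Examples (second part): (1) `x_n = (⌊b ^ n ξ_l⌋)_l` for ANY vector `ξ` of real numbers which is normal to the
base `b ≥ 2`; (2) the orbit of any vector `v ≠ 0` along ANY normal word in matrices which generate the special
linear group modulo all `q` prime to some `q₀` (generators of a thin group); (3) vectors of integers whose
digits are chosen from a restricted set of vectors.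

The starting result `ResidueClassesAndOrbits` has the orbits of thin groups for ALMOST ALL words and metric
sequences for almost all real numbers, `ConvergentsOfNormalNumbers` the convergents of continued fraction normal
numbers.

Proof. The exceptional vectors are contained in few residue classes modulo powers of `p` (starting library
`N763.SC`). Every orbit along a normal sequence of indices is equidistributed in a large set of classes modulo
`p ^ k` (engine `Pool.Agent.U125.NO` of helper125), and there are countably many families.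
-/

set_option autoImplicit false

namespace Pool.Agent.Results.MP_3550b5_nt.NormalSequences

open Filter Topology
open Pool.Agent.Y732 Pool.Agent.R89.SR Pool.Agent.N763.SC
open Pool.Agent.U125.NO (NormalOrbit Examples examples nul_countable)

/-- The set `E` of natural numbers has density zero. -/
def Null (E : Set ℕ) : Prop :=
  Tendsto (fun N : ℕ => (({m : ℕ | m < N ∧ m ∈ E}.ncard : ℕ) : ℝ) / (N : ℝ)) atTop (𝓝 0)

/-- The frequencies of the residue classes. -/
theorem freq_of_normal {d : ℕ} {x : ℕ → Fin d → ℤ} (hx : NormalOrbit x) :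
    ∃ q₀ : ℕ, 0 < q₀ ∧ ∃ κ : ℝ, 0 < κ ∧ ∀ q : ℕ, 0 < q → q.Coprime q₀ → Freq x q κ := by
  obtain ⟨q₀, hq₀, c, hc, h⟩ := hx.upper
  refine ⟨q₀, hq₀, 1 / c, by positivity, fun q hq hqc S δ hδ => ?_⟩
  have : NeZero q := ⟨hq.ne'⟩
  have hqr : (0 : ℝ) < (q : ℝ) ^ d := by
    have : (0 : ℝ) < q := by exact_mod_cast hq
    positivity
  have h1 := h q hq hqc (fun v => (fun l => ((v l : ℤ) : ZMod q)) ∈ S) ((S.ncard : ℝ) / (q : ℝ) ^ d)
    (by positivity) (by
      have h2 : (((fun (c : Fin d → ℤ) (i : Fin d) => (c i : ZMod q)) ''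
          {u : Fin d → ℤ | (fun l => ((u l : ℤ) : ZMod q)) ∈ S}).ncard) ≤ S.ncard := by
        refine Set.ncard_le_ncard ?_ (Set.toFinite _)
        rintro _ ⟨u, hu, rfl⟩
        exact hu
      rw [Fintype.card_fin, div_mul_cancel₀ _ hqr.ne']
      exact_mod_cast h2) δ hδ
  filter_upwards [h1] with N hN
  have h3 : cnt x {v | (fun l => ((v l : ℤ) : ZMod q)) ∈ S} N / (N : ℝ) ≤
      (S.ncard : ℝ) / (q : ℝ) ^ d / c + δ := hN
  refine h3.trans (le_of_eq ?_)
  ring

theorem countable_pol (d : ℕ) : Countable (MvPolynomial (Fin d) ℤ) := by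
  have h := MvPolynomial.cardinalMk_le_max (σ := Fin d) (R := ℤ)
  rw [← Cardinal.mk_le_aleph0_iff]
  refine h.trans ?_
  simp

instance (d r : ℕ) : Countable (Family d r) := by
  have := countable_pol d
  let f : Family d r → (Fin d → ℕ) × ℕ × (Fin (r + 1) → Fin (r + 1) → ℕ) ×
      (MvPolynomial (Fin d) ℤ × MvPolynomial (Fin d) ℤ × MvPolynomial (Fin d) ℤ × MvPolynomial (Fin d) ℤ ×
        MvPolynomial (Fin d) ℤ) ×
      (Fin (r + 1) → Fin (r + 1) → MvPolynomial (Fin d) ℤ) ×
      (Fin (r + 1) → Fin (r + 1) → MvPolynomial (Fin d) ℤ) ×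
      (Fin (r + 1) → Fin (r + 1) → MvPolynomial (Fin d) ℤ) := fun F =>
    (F.w, F.χ, F.n, (F.W.a₁, F.W.a₂, F.W.a₃, F.W.a₄, F.W.a₆), F.x, F.y, F.e)
  have hf : Function.Injective f := by
    rintro ⟨w, χ, n, ⟨a₁, a₂, a₃, a₄, a₆⟩, x, y, e, h1, h2, h3, h4, h6, hx, hy, he⟩
      ⟨w', χ', n', ⟨a₁', a₂', a₃', a₄', a₆'⟩, x', y', e', h1', h2', h3', h4', h6', hx', hy', he'⟩ h
    simp only [f, Prod.mk.injEq] at h
    obtain ⟨rfl, rfl, rfl, ⟨rfl, rfl, rfl, rfl, rfl⟩, rfl, rfl, rfl⟩ := h
    rfl
  exact hf.countable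

theorem result :
    (∀ (d : ℕ) (x : ℕ → Fin d → ℤ), NormalOrbit x → ∃ q₀ : ℕ, 0 < q₀ ∧ ∃ κ : ℝ, 0 < κ ∧
      (∀ (r : ℕ) (F : Family d r), 0 < r → F.K.det ≠ 0 → ∀ (p : ℕ) [Fact p.Prime], 5 ≤ p → ¬ p ∣ q₀ →
        Rare x F p κ) ∧
      ∃ E : Set ℕ, Null E ∧ ∀ (r : ℕ) (F : Family d r), 0 < r → F.K.det ≠ 0 →
        ∀ (p : ℕ) [Fact p.Prime], 5 ≤ p → ¬ p ∣ q₀ →
          {n : ℕ | n ∉ E ∧ F.Marked (x n) ∧ IsOrdinaryW p (F.curve (x n)) ∧ ¬ F.NonDeg (x n) p}.Finite) ∧
    ∀ d : ℕ, Examples (Fin d) := by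
  refine ⟨?_, fun d => examples (Fin d)⟩
  intro d x hx
  obtain ⟨q₀, hq₀, κ, hκ, hfr⟩ := freq_of_normal hx
  have hrare : ∀ (r : ℕ) (F : Family d r), 0 < r → F.K.det ≠ 0 → ∀ (p : ℕ) [Fact p.Prime], 5 ≤ p →
      ¬ p ∣ q₀ → Rare x F p κ := by
    intro r F hr hK p hp hp5 hpq
    exact rare_of_freq hκ.le (fun k => hfr (p ^ k) (pow_pos hp.out.pos k)
      (Nat.Coprime.pow_left k ((Nat.Prime.coprime_iff_not_dvd hp.out).2 hpq))) F hr hK hp5
  refine ⟨q₀, hq₀, κ, hκ, hrare, ?_⟩
  obtain ⟨E, hE1, hE2⟩ := nul_countable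
    (K := {a : (Σ r : ℕ, Family d r) × Nat.Primes // 0 < a.1.1 ∧ a.1.2.K.det ≠ 0 ∧ 5 ≤ (a.2 : ℕ) ∧
      ¬ (a.2 : ℕ) ∣ q₀})
    (fun a => {n : ℕ | a.1.1.2.Marked (x n) ∧
      (haveI : Fact (a.1.2 : ℕ).Prime := ⟨a.1.2.2⟩;
        IsOrdinaryW (a.1.2 : ℕ) (a.1.1.2.curve (x n)) ∧ ¬ a.1.1.2.NonDeg (x n) (a.1.2 : ℕ))})
    (fun a => by
      obtain ⟨⟨⟨r, F⟩, ⟨p, hp⟩⟩, hr, hK, hp5, hpq⟩ := a
      haveI : Fact p.Prime := ⟨hp⟩
      exact (hrare r F hr hK p hp5 hpq).1)
  refine ⟨E, hE1, fun r F hr hK p hp hp5 hpq => ?_⟩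
  refine (hE2 ⟨(⟨r, F⟩, ⟨p, hp.out⟩), hr, hK, hp5, hpq⟩).subset ?_
  rintro n ⟨hn, hn2⟩
  exact ⟨hn2, hn⟩

end Pool.Agent.Results.MP_3550b5_nt.NormalSequences
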